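import Pool.Agent.T9h36.N1.Spec

/-!
# Project NK, slope 1: piece (UP)
-/

set_option autoImplicit false

open Set
open scoped RealInnerProductSpace

namespace Pool.Agent.T9h46.N1

open Pool.Agent.T9h98.DC Pool.Agent.T9h98.NK Pool.Agent.T9h44.NK Pool.Agent.T9h46.NK
open Pool.Agent.T9h36.N1

theorem up_key (hF : S_FACES) (hVF : S_VF) (hI : S_INV) (hO : S_IOTA) (hT : S_TR)
    (hS : S_STEP) (k N : ℕ) (hN : 9 ≤ N) (hMNT : MNT k N) :
    ∀ (j n : ℕ), N + j ≤ n → ∀ (P : Set (E (n + 1)))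
      (H : Subgroup (E (n + 1) ≃ₗᵢ[ℝ] E (n + 1))), IsPolytope P → Pres H P → Few k H P →
      Good P H ∨ PT (j + 1) H P := by
  intro j
  induction j with
  | zero =>
    intro n hn P H hP hH hFew
    by_cases htr : ∃ v w, Vx P v ∧ Vx P w ∧ ∀ h ∈ H, h v ≠ w
    · exact Or.inl (hMNT n (by omega) P H hP hH hFew htr)
    · push Not at htr
      right
      obtain ⟨-, -, -, -, h5, -⟩ := hF (n + 1) P hP.1
      obtain ⟨x, hx⟩ := hP.2
      obtain ⟨-, v, hv⟩ := h5 ⟨x, interior_subset hx⟩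
      obtain ⟨a, ha, hs, hfix⟩ := hI (n + 1) P v H hP.1 hv (exists_ne hP v) hH
      obtain ⟨ι, hι, -⟩ := hO n a ha
      obtain ⟨-, -, t3, -, -⟩ := hT n P H v a ι hP hH hv hs ha hι hfix
      exact t3 0 (fun w hw => htr v w hv hw) (pt_zero _ _)
  | succ j ih =>
    intro n hn P H hP hH hFew
    obtain ⟨m, rfl⟩ : ∃ m, n = m + 1 := ⟨n - 1, by omega⟩
    by_cases htr : ∃ v w, Vx P v ∧ Vx P w ∧ ∀ h ∈ H, h v ≠ w
    · exact Or.inl (hMNT (m + 1) (by omega) P H hP hH hFew htr)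
    · push Not at htr
      by_cases hex : ∃ (v a : E (m + 1 + 1)) (ι : E (m + 1) →ₗᵢ[ℝ] E (m + 1 + 1)), Vx P v ∧ a ≠ 0 ∧
          Sup P v a ∧ Ort a ι ∧ (∀ h ∈ H, h v = v → h a = a) ∧
            PT (j + 1) (figH H v ι) (fig v a ι P)
      · obtain ⟨v, a, ι, hv, ha, hs, hι, hfix, hpt⟩ := hex
        right
        obtain ⟨-, -, t3, -, -⟩ := hT (m + 1) P H v a ι hP hH hv hs ha hι hfix
        exact t3 (j + 1) (fun w hw => htr v w hv hw) hpt
      · left
        apply hS (m + 1) P H (by omega) hP hH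
        intro v hv
        obtain ⟨a, ha, hs, hfix⟩ := hI (m + 1 + 1) P v H hP.1 hv (exists_ne hP v) hH
        obtain ⟨ι, hι, -⟩ := hO (m + 1) a ha
        refine ⟨a, ι, hs, ha, hι, hfix, ?_⟩
        obtain ⟨t1, -, -, t4, -⟩ := hT (m + 1) P H v a ι hP hH hv hs ha hι hfix
        have hfig := (hVF (m + 1) P v a ι hP hv hs ha hι).1
        rcases ih m (by omega) _ _ hfig t1 (t4 k hFew) with h | h
        · exact h
        · exact absurd ⟨v, a, ι, hv, ha, hs, hι, hfix, h⟩ hex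

/-- **(UP)** -/
theorem up (hF : S_FACES) (hVF : S_VF) (hI : S_INV) (hO : S_IOTA) (hT : S_TR) (hM : S_MONO)
    (hS : S_STEP) : S_UP := by
  intro k N L N₀ hN hL hN0 hMNT n hn P H hP hH hFew
  rcases up_key hF hVF hI hO hT hS k N hN hMNT L n hn P H hP hH hFew with h | h
  · exact h
  · exact good_of_pt hF hM (L + 1) (by omega) (by omega) hP (hL n (by omega) P H hP hH h) h

end Pool.Agent.T9h46.N1
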