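import Pool.Agent.T9h36.N1.St2

/-!
# Project NK, slope 1: better numbers from the known values of `N_2` and `N_3`
-/

set_option autoImplicit false

open Set
open scoped RealInnerProductSpace

namespace Pool.Agent.T9h46.N1

open Pool.Agent.T9h98.DC Pool.Agent.T9h98.NK Pool.Agent.T9h44.NK Pool.Agent.T9h46.NK
open Pool.Agent.T9h36.N1

/-- `MK 1 9`, `MK 2 10`, `MK 3 11` give `MK 4 15`, `MK 5 16` and `MK k (k + 12)` for `k ≥ 3` -/
theorem numbersC (hF : S_FACES) (hVF : S_VF) (hI : S_INV) (hO : S_IOTA) (hNB : S_NB) (hT : S_TR)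
    (hM : S_MONO) (hS : S_STEP) (hCO : S_CONN) (hLC : S_LOCC) (h1 : S_N1) (h4 : S_N4)
    (h5 : S_N5) (h6 : S_N6) (hUP : S_UP) (hLL : Pool.Agent.T9h36.N1.LLG 4 10) (k2 : MK 2 10)
    (k3 : MK 3 11) : MK 4 15 ∧ MK 5 16 ∧ ∀ k, 3 ≤ k → MK k (k + 12) := by
  have st := st2 hF hVF hI hO hNB hT hM hS hCO hLC h1 h4 h5 h6
  have up : ∀ k N, 9 ≤ N → MNT k N → MK k (N + 3) := fun k N h9 h =>
    hUP k N 3 10 h9 hLL (by omega) h
  have mn : ∀ {k N N' : ℕ}, N ≤ N' → MNT k N → MNT k N' := fun h h' n hn => h' n (h.trans hn)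
  have m3 : MNT 3 11 := mnt_of_mk k3
  have m4 : MNT 4 12 := st 2 1 11 3 10 (by norm_num) (by norm_num) (by norm_num) hLL
    (mk_mono le_rfl (by norm_num) k2) m3 (Or.inl rfl)
  have k4 : MK 4 15 := up 4 12 (by norm_num) m4
  have m5 : MNT 5 13 := st 3 1 12 3 10 (by norm_num) (by norm_num) (by norm_num) hLL
    (mk_mono le_rfl (by norm_num) k3) m4 (Or.inl rfl)
  have k5 : MK 5 16 := up 5 13 (by norm_num) m5
  have alt2 : Alt 2 3 14 := Or.inr ⟨10, by norm_num, by omega, by omega, k2⟩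
  have alt3 : ∀ N, 14 ≤ N → Alt 3 3 N := fun N hN => Or.inr ⟨11, by norm_num, by omega, by omega, k3⟩
  have m6 : MNT 6 15 := st 3 2 14 3 10 (by norm_num) (by norm_num) (by norm_num) hLL
    (mk_mono le_rfl (by norm_num) k3) (mn (by norm_num) m5) alt2
  have key : ∀ j, MNT (j + 6) (j + 15) := by
    intro j
    induction j using Nat.strong_induction_on with
    | _ j ih =>
      rcases Nat.eq_zero_or_pos j with rfl | hj
      · exact m6
      · obtain ⟨i, rfl⟩ : ∃ i, j = i + 1 := ⟨j - 1, by omega⟩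
        have hka : MK (i + 3) (i + 15) := by
          rcases i with _ | _ | _ | i
          · exact mk_mono le_rfl (by norm_num) k3
          · exact mk_mono le_rfl (by norm_num) k4
          · exact mk_mono le_rfl (by norm_num) k5
          · exact mk_mono le_rfl (by omega) (up (i + 6) (i + 15) (by omega) (ih i (by omega)))
        exact st (i + 3) 3 (i + 15) 3 10 (by omega) (by omega) (by omega) hLL hka (ih i (by omega))
          (alt3 (i + 15) (by omega))
  refine ⟨k4, k5, fun k hk => ?_⟩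
  rcases k with _ | _ | _ | _ | _ | _ | k
  · omega
  · omega
  · omega
  · exact mk_mono le_rfl (by norm_num) k3
  · exact mk_mono le_rfl (by norm_num) k4
  · exact mk_mono le_rfl (by norm_num) k5
  · exact mk_mono le_rfl (by omega) (up (k + 6) (k + 15) (by omega) (key k))

end Pool.Agent.T9h46.N1
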