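import Pool.Agent.T9h36.N1.All
import Pool.Agent.T9h44.N1.Fin2
import Pool.Agent.T9h46.N1.Cond

/-!
# Project NK, slope 1: the bounds that use the known values of `N_2` and `N_3`
-/

set_option autoImplicit false

open Set
open scoped RealInnerProductSpace

namespace Pool.Agent.T9h46.N1

open Pool.Agent.T9h98.DC Pool.Agent.T9h98.NK Pool.Agent.T9h44.NK Pool.Agent.T9h46.NK
open Pool.Agent.T9h36.N1 Pool.Agent.T9h44.N1

/-- the base for two orbits from `N_2 ≤ 11` -/
theorem mk2c (h2 : ∀ d, 11 ≤ d → ∀ P : Set (E d), ¬ IsKOrbit 2 P) : MK 2 10 := by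
  have h := Pool.Agent.T9h64.NK.md_base fFaces fVF fInv fIota fTR fExt fMono fLL7 fStep fTrans 2 11
    (by norm_num) (by norm_num) (fun j hj hj' d hd P => by
      obtain rfl : j = 2 := by omega
      exact h2 d (by omega) P)
  exact fun n hn P H hP hH hF => h n (by omega) P H hP hH hF

/-- **the bound with the known values of `N_2`, `N_3`** -/
theorem condFin (h2 : ∀ d, 11 ≤ d → ∀ P : Set (E d), ¬ IsKOrbit 2 P)
    (h3 : ∀ d, 12 ≤ d → ∀ P : Set (E d), ¬ IsKOrbit 3 P) (k : ℕ) (hk : 3 ≤ k) (d : ℕ)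
    (P : Set (E d)) (hP : IsKOrbit k P) : d < k + 13 ∧ (k ≤ 5 → d < k + 12) := by
  have k3 : MK 3 11 := mk3' h2 h3
  obtain ⟨k4, k5, hall⟩ := numbersC fFaces fVF fInv fIota fNb fTR fMono fStep fConn gLocc gN1 gN4 gN5
    zN6 gUp zLL (mk2c h2) k3
  refine ⟨?_, fun hk5 => ?_⟩
  · have := fin15 fTrans fOne fFts fFto fFtc k (k + 12) d (by omega) (hall k hk) P hP
    omega
  · have hcases : k = 3 ∨ k = 4 ∨ k = 5 := by omega
    rcases hcases with rfl | rfl | rfl
    · have := fin15 fTrans fOne fFts fFto fFtc 3 11 d (by norm_num) k3 P hP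
      omega
    · have := fin15 fTrans fOne fFts fFto fFtc 4 15 d (by norm_num) k4 P hP
      omega
    · have := fin15 fTrans fOne fFts fFto fFtc 5 16 d (by norm_num) k5 P hP
      omega

end Pool.Agent.T9h46.N1
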